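import Pool.Agent.H866.NE.Main

set_option autoImplicit false

/-!
# Parity of partitions: forbidding `ψ(x) log x` parts suffices, for every `ψ → ∞` (MP_ebc808_nt)

Let `ψ : ℕ → ℝ` tend to infinity, arbitrarily slowly. There is a set `S` with at most `ψ(x) log x`
elements up to `x` (for large `x`) such that the numbers `p_S(n)` of the partitions of `n` with no part
in `S` are even with density `1/2`; moreover every word of parities of length `L` occurs with density
`2 ^ (-L)`, also after any finite change of `S` and independently of any prescribed countable family of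
bounded sequences, and the same holds, with the same `S`, for the coefficients of
`G_j ∏_{s ∈ S} (1 + X ^ s)` for any prescribed nonzero series `G_0, G_1, …` over the field with two
elements. For general series the order `log x` is necessary: if half of the coefficients of
`∏_{s ∈ S} (1 + X ^ s)` are ones, then `S` has at least `log x / log 2 - 2` elements up to `x`.

Method. The set `S` is built in dyadic blocks `[N, 2 N)`; in one block `K` elements `N + u_i` are chosen,
`u_i` random in `[0, 2 N)`. For a series `B` with `B(0) = 1` the new coefficient at `N + t`, `t < N`, is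
the old one plus `∑_i b(t - u_i)`. Two places `t < t'` see different bits for at least `A(t' - t)`
values of `u_i`, where `A(d)` is the number of ones among the first `d` coefficients: for `t < u ≤ t'`
the first sees zero and the second a coefficient of index `t' - u < t' - t`. Hence the second moment of the
sum of the signs over the block is `o(N ^ 2)` if `K → ∞` and `A(d) ≥ κ d` on the scales `εN ≤ d ≤ N`,
and no higher correlations are needed. The lower bound for `A` comes from a growth argument: with
probability near one `A(2 N) ≥ 8 A(N / 2)` as long as `A(N / 2) ≤ κ N / 2`, by Chebyshev's inequality.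
-/

namespace Pool.Agent.Results.MP_ebc808_nt.NearMinimalForbiddenParts

open Filter Topology

/-- the number of the partitions of `n` with no part in `D` -/
noncomputable def partitionsAvoiding (D : Set ℕ) (n : ℕ) : ℕ :=
  Nat.card {p : Nat.Partition n // ∀ a ∈ p.parts, a ∉ D}

open Classical in
/-- the coefficient of `X ^ n` in `G ∏_{d ∈ D} (1 + X ^ d)` over the field with two elements; the product
is over the positive elements of `D`, and those larger than `n` do not matter -/
noncomputable def coefficient (G : PowerSeries (ZMod 2)) (D : Set ℕ) (n : ℕ) : ZMod 2 :=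
  PowerSeries.coeff n
    (G * ∏ d ∈ (Finset.Icc 1 n).filter (fun d => d ∈ D), (1 + PowerSeries.X ^ d))

open Classical in
/-- every word of length `L` occurs in `f` at the proportion `2 ^ (-L)` of the places, with respect to the
weights `w`: the sum over the `n < x` of `w n (1 - 2 ^ (-L))` for the `n` at which the word occurs and
`- w n 2 ^ (-L)` for the other `n` is `o(x)` -/
def Equidistributed (w : ℕ → ℝ) (f : ℕ → ZMod 2) : Prop :=
  ∀ (L : ℕ) (v : Fin L → ZMod 2), Tendsto (fun x : ℕ => (∑ n ∈ Finset.range x,
    w n * ((if ∀ i : Fin L, f (n + i) = v i then (1 : ℝ) else 0) - (1 / 2) ^ L)) / (x : ℝ))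
    atTop (𝓝 0)

open Pool.Agent.H866.NE in
theorem coefficient_eq (G : PowerSeries (ZMod 2)) (D : Set ℕ) (n : ℕ) :
    coefficient G D n = sco G (D \ {0}) n := by
  classical
  unfold coefficient
  rw [sco_eq G (D \ {0}) ((Finset.Icc 1 n).filter fun d => d ∈ D) n]
  · rfl
  · intro s hs
    simp only [Finset.mem_filter, Finset.mem_Icc, Set.mem_sdiff, Set.mem_singleton_iff]
    constructor
    · rintro ⟨h1, h2⟩; exact ⟨h2, by omega⟩
    · rintro ⟨h1, h2⟩; exact ⟨⟨by omega, hs⟩, h1⟩

open Pool.Agent.H866.NE in
theorem avoiding_eq (D : Set ℕ) (n : ℕ) :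
    (partitionsAvoiding D n : ZMod 2) = sco partSeries (D \ {0}) n := by
  classical
  rw [← coefficient_eq]
  have h0 : 0 ∉ (Finset.Icc 1 n).filter (fun d => d ∈ D) := by simp
  have h1 : partitionsAvoiding D n = av ((Finset.Icc 1 n).filter fun d => d ∈ D) n := by
    unfold partitionsAvoiding av
    rw [Nat.card_eq_fintype_card, Fintype.card_subtype]
    congr 1
    refine Finset.filter_congr fun p _ => ?_
    constructor
    · intro h a ha hc
      exact h a ha (Finset.mem_filter.1 hc).2
    · intro h a ha hc
      refine h a ha (Finset.mem_filter.2 ⟨Finset.mem_Icc.2 ⟨p.parts_pos ha, p.le_of_mem_parts ha⟩, hc⟩)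
  rw [h1, av_eq _ h0]
  rfl

open Pool.Agent.H866.NE in
theorem freq_of_equidistributed (f : ℕ → ZMod 2) (h : Equidistributed (fun _ => 1) f) (L : ℕ)
    (v : Fin L → ZMod 2) :
    Tendsto (fun x : ℕ => (((Finset.range x).filter fun n => ∀ i : Fin L, f (n + i) = v i).card : ℝ)
      / x) atTop (𝓝 ((1 / 2) ^ L)) := by
  have h1 := (h L v).add (tendsto_const_nhds (x := ((1 : ℝ) / 2) ^ L))
  rw [zero_add] at h1
  refine h1.congr' ?_
  filter_upwards [eventually_gt_atTop 0] with x hx
  have hx0 : (x : ℝ) ≠ 0 := by positivity
  simp only [one_mul, Finset.sum_sub_distrib, Finset.sum_const, Finset.card_range, nsmul_eq_mul]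
  rw [← Finset.sum_filter, Finset.sum_const, nsmul_eq_mul, mul_one]
  field_simp
  rw [sub_add_cancel]

open Pool.Agent.H866.NE in
theorem equi (ψ : ℕ → ℝ) (hψ : Tendsto ψ atTop atTop) {ι κ : Type} [Countable ι] [Countable κ]
    (G : ι → PowerSeries (ZMod 2)) (w : κ → ℕ → ℝ) (hG : ∀ j, G j ≠ 0) (hw : ∀ k n, |w k n| ≤ 1) :
    ∃ S : Set ℕ, (∀ᶠ x : ℕ in atTop, ((S ∩ Set.Icc 1 x).ncard : ℝ) ≤ ψ x * Real.log x) ∧
      ∀ D : Set ℕ, 0 ∉ D → (symmDiff D S).Finite → ∀ j k, Equidistributed (w k) (sco (G j) D) := by
  obtain ⟨S, _, h1, h2⟩ := windows ψ hψ G w hG hw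
  exact ⟨S, h1, fun D hD hf j k L v =>
    words (sco (G j) D) (w k) (fun H hH => h2 D hD hf j k H hH) L v⟩

/-- the given series and the partition series -/
noncomputable def addSeries (G : ℕ → PowerSeries (ZMod 2)) : Option ℕ → PowerSeries (ZMod 2)
  | none => Pool.Agent.H866.NE.partSeries
  | some j => G j

/-- the given weights and the constant weight -/
noncomputable def addWeight (w : ℕ → ℕ → ℝ) : Option ℕ → ℕ → ℝ
  | none => fun _ => 1
  | some k => w k

open Pool.Agent.H866.NE in
/-- **Theorem.** (1) Let `ψ` tend to infinity, let `G j` be nonzero power series over the field with two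
elements and let `w k` be sequences of real numbers in `[-1, 1]`. There is a set `S` with at most
`ψ(x) log x` elements up to `x`, for all large `x`, such that for every set `D` which differs from `S` by
finitely many elements: every word of length `L` occurs among the parities of the numbers of partitions
with no part in `D` with density `2 ^ (-L)`; this is also true with respect to all weights `w k`; and
also for the coefficients of all the series `G j ∏_{d ∈ D} (1 + X ^ d)`.
(2) If the ones among the coefficients of `∏_{s ∈ S} (1 + X ^ s)` modulo 2 have the density `1/2`, then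
`S` has at least `log x / log 2 - 2` elements up to `x` for all large `x`. -/
theorem result :
    (∀ ψ : ℕ → ℝ, Tendsto ψ atTop atTop →
      ∀ (G : ℕ → PowerSeries (ZMod 2)) (w : ℕ → ℕ → ℝ), (∀ j, G j ≠ 0) → (∀ k n, |w k n| ≤ 1) →
      ∃ S : Set ℕ, (∀ᶠ x : ℕ in atTop, ((S ∩ Set.Icc 1 x).ncard : ℝ) ≤ ψ x * Real.log x) ∧
        ∀ D : Set ℕ, (symmDiff D S).Finite →
          (∀ (L : ℕ) (v : Fin L → ZMod 2),
            Tendsto (fun x : ℕ => (((Finset.range x).filter fun n =>
              ∀ i : Fin L, (partitionsAvoiding D (n + i) : ZMod 2) = v i).card : ℝ) / x)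
              atTop (𝓝 ((1 / 2) ^ L))) ∧
          (∀ k, Equidistributed (w k) fun n => (partitionsAvoiding D n : ZMod 2)) ∧
          ∀ j k, Equidistributed (w k) (coefficient (G j) D)) ∧
    (∀ S : Set ℕ,
      Tendsto (fun x : ℕ => (((Finset.range x).filter fun n => coefficient 1 S n = 1).card : ℝ) / x)
        atTop (𝓝 (1 / 2)) →
      ∀ᶠ x : ℕ in atTop, Real.log x / Real.log 2 - 2 ≤ ((S ∩ Set.Icc 1 x).ncard : ℝ)) := by
  constructor
  · intro ψ hψ G w hG hw
    obtain ⟨S, hS1, hS2⟩ := equi ψ hψ (addSeries G) (addWeight w)
      (fun o => by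
        rcases o with _ | j
        · exact part_ne_zero
        · exact hG j)
      (fun o n => by
        rcases o with _ | k
        · simp [addWeight]
        · exact hw k n)
    refine ⟨S, hS1, fun D hD => ?_⟩
    have hD0 : (0 : ℕ) ∉ D \ {0} := by simp
    have hDf : (symmDiff (D \ {0}) S).Finite := by
      refine (hD.union (Set.finite_singleton 0)).subset ?_
      intro s hs
      rcases hs with ⟨h1, h2⟩ | ⟨h1, h2⟩
      · exact Or.inl (Or.inl ⟨h1.1, h2⟩)
      · by_cases h : s = 0
        · exact Or.inr h
        · exact Or.inl (Or.inr ⟨h1, fun hc => h2 ⟨hc, h⟩⟩)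
    have key := hS2 (D \ {0}) hD0 hDf
    have e1 : (fun n => (partitionsAvoiding D n : ZMod 2)) = sco partSeries (D \ {0}) := by
      funext n; exact avoiding_eq D n
    refine ⟨fun L v => ?_, fun k => ?_, fun j k => ?_⟩
    · have h1 := freq_of_equidistributed (fun n => (partitionsAvoiding D n : ZMod 2))
        (by rw [e1]; exact key none none) L v
      exact h1
    · rw [e1]; exact key none (some k)
    · have e2 : coefficient (G j) D = sco (G j) (D \ {0}) := by
        funext n; exact coefficient_eq (G j) D n
      rw [e2]; exact key (some j) (some k)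
  · intro S hS
    have h1 : ∀ᶠ x : ℕ in atTop, (1 / 4 : ℝ) ≤
        (((Finset.range x).filter fun n => coefficient 1 S n = 1).card : ℝ) / x :=
      hS.eventually_const_le (by norm_num)
    filter_upwards [h1, eventually_gt_atTop 0] with x hx hx0
    have hxr : (0 : ℝ) < x := by positivity
    rw [le_div_iff₀ hxr] at hx
    have h2 := ones_le (S \ {0}) x
    have h3 : ((Finset.range x).filter fun n => coefficient 1 S n = 1) ⊆
        (Finset.range x).filter fun n => sco 1 (S \ {0}) n ≠ 0 := by
      intro n hn
      rw [Finset.mem_filter] at hn ⊢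
      refine ⟨hn.1, ?_⟩
      rw [← coefficient_eq, hn.2]
      exact one_ne_zero
    have h4 : ((S \ {0}) ∩ Set.Iio x).ncard ≤ (S ∩ Set.Icc 1 x).ncard := by
      apply Set.ncard_le_ncard
      · rintro s ⟨⟨hs1, hs2⟩, hs3⟩
        refine ⟨hs1, ?_, ?_⟩
        · have : s ≠ 0 := hs2
          omega
        · exact (Set.mem_Iio.1 hs3).le
      · exact (Set.finite_Icc 1 x).subset Set.inter_subset_right
    have h5 : (x : ℝ) / 4 ≤ 2 ^ (S ∩ Set.Icc 1 x).ncard := by
      have h6 := (Finset.card_le_card h3).trans (h2.trans (Nat.pow_le_pow_right (by norm_num) h4))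
      have h7 : (((Finset.range x).filter fun n => coefficient 1 S n = 1).card : ℝ) ≤
          2 ^ (S ∩ Set.Icc 1 x).ncard := by exact_mod_cast h6
      linarith
    have h8 : Real.log (x / 4) ≤ (S ∩ Set.Icc 1 x).ncard * Real.log 2 := by
      rw [← Real.log_pow]
      exact Real.log_le_log (by positivity) h5
    have hl2 : 0 < Real.log 2 := Real.log_pos (by norm_num)
    rw [Real.log_div (by positivity) (by norm_num), show (4 : ℝ) = 2 ^ 2 by norm_num,
      Real.log_pow] at h8
    push_cast at h8
    have h9 : Real.log x / Real.log 2 - 2 = (Real.log x - 2 * Real.log 2) / Real.log 2 := by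
      field_simp
    rw [h9, div_le_iff₀ hl2]
    exact h8

end Pool.Agent.Results.MP_ebc808_nt.NearMinimalForbiddenParts
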