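import Pool.Agent.H557.SI.DyB
import Pool.Agent.H557.SI.Grp
import Pool.Agent.H557.SI.Asm

/-!
# Equidistribution of the parity of `p(n, k)` in intervals of length `exp(O(k / log k))`, almost all `k`

`p(n, k)` denotes the number of partitions of `n` all of whose parts are at most `k`, so that
`p(n, k) = p(n)` for `n ≤ k`.  We prove a truncated form of the Parkin-Shanks statement, uniformly
in blocks, residue classes and intervals, for all `k ∈ [K, 2K]` outside a sparse set: every
interval of `H + 1` consecutive integers contains at most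
`C L W (1 + H ((L W)^2 log K / K)^(1/3))` exceptional `k`; in particular there are at most
`O((L W)^(5/3) K^(2/3) (log K)^(1/3))` of them in `[K, 2K]`.  The intervals may be as short as
`q exp(C K / s)`, for every `s`, with relative error `C 2^|D| exp(-c W / (8^s log K))`; for
`W = K^δ` and `s = c' log K` they have length `q exp(O(K / log K))`, much less than the period of
the parities of `p(n, k)`, whose logarithm is of order `k`.

Idea of the proof.  For a prime `ℓ ∈ (k/2, k]` the parity of `p(n, k)` is the sum of a function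
`β_ℓ` of `n mod ℓ` and of a function of period prime to `ℓ`; `β_ℓ` is far from constants for many
`ℓ`, unless `k` is exceptional (sparse functions on `ZMod ℓ` divisible by
`∏_{i < h} (1 - X^(k+h-i))` cannot exist).  Put the other parts `d ≤ k` into `s` groups according to
a prime factor `> s` of `d` (the primes are grouped by the value of `θ(p)`), such that the product
of the `1 - X^d` over a group divides `1 - X^Λ` with `log Λ = O(k / s)`.  Hence `s` differences with
steps divisible by the `Λ`s kill everything but the `β_ℓ` of `O(k / (s log k))` chosen primes `ℓ`,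
and the iterated van der Corput inequality with the shifts `Λ ∑ t_ℓ ∏_{m ≠ ℓ} m` reduces the
correlation to a product over `ℓ` of Gowers type averages of the `β_ℓ`.
-/

namespace Pool.Agent.Results.MP_ebc808_nt.TruncatedParityShortIntervals

/-- `p n k` is the number of partitions of `n` all of whose parts are at most `k`. -/
def p (n k : ℕ) : ℕ := (Nat.Partition.restricted n (· ≤ k)).card

/-- `count k q ρ D w x N` is the number of `n ∈ [x, x + N)` with `n ≡ ρ mod q` and
`p (n + d) k ≡ w d mod 2` for all `d ∈ D`. -/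
def count (k q ρ : ℕ) (D : Finset ℕ) (w : ℕ → ZMod 2) (x N : ℕ) : ℕ :=
  ((Finset.Ico x (x + N)).filter fun n =>
    n ≡ ρ [MOD q] ∧ ∀ d ∈ D, ((p (n + d) k : ℕ) : ZMod 2) = w d).card

theorem result : ∃ c C : ℝ, 0 < c ∧ 0 < C ∧ ∀ K L W : ℕ, 2 ≤ K → 1 ≤ L → 1 ≤ W →
    ∃ E : Finset ℕ,
      (∀ a H : ℕ, ((E ∩ Finset.Icc a (a + H)).card : ℝ) ≤
        C * ((L : ℝ) * W) * (1 + H * (((L : ℝ) * W) ^ 2 * Real.log K / K) ^ (1 / 3 : ℝ))) ∧
      ∀ k : ℕ, K ≤ k → k ≤ 2 * K → k ∉ E →
        ∀ s : ℕ, 1 ≤ s → ∀ q : ℕ, 1 ≤ q → Real.log q ≤ c * K →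
          ∀ (ρ : ℕ) (D : Finset ℕ) (w : ℕ → ZMod 2), D.card ≤ L → (∀ d ∈ D, 5 * d ≤ K) →
            ∀ x N : ℕ, (q : ℝ) * Real.exp (C * (K / s)) ≤ N →
              |2 ^ D.card * q * ((count k q ρ D w x N : ℝ) / N) - 1| ≤
                C * (2 ^ D.card * Real.exp (-(c * W / (8 ^ s * Real.log K)))) := by
  obtain ⟨c, C, hc, hC, h⟩ :=
    Pool.Agent.H557.SI.dy_mainB (Pool.Agent.H557.SI.ASM.main Pool.Agent.H557.SI.GRP.main)
  refine ⟨c, C, hc, hC, ?_⟩
  intro K L W hK hL hW
  obtain ⟨E, hE1, hE2⟩ := h K L W hK hL hW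
  refine ⟨E, hE1, ?_⟩
  intro k hk1 hk2 hkE s hs q hq hlogq ρ D w hD1 hD2 x N hN
  exact hE2 k hk1 hk2 hkE s hs q hq hlogq ρ D w hD1 hD2 x N hN

end Pool.Agent.Results.MP_ebc808_nt.TruncatedParityShortIntervals
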